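import Pool.Agent.Helper90_ABC3.Slice

set_option autoImplicit false
set_option linter.all false

namespace Pool.Agent.ABC3.H90

open Matrix Pool.Agent.ABC3

section setup
variable {K Q : Type} [Field K] [CharP K 3] [AddCommGroup Q] [Module K Q]
  {ι ι' : Type} [Fintype ι] [DecidableEq ι] [Fintype ι'] [DecidableEq ι']

theorem sl_act_false (hKRS : KRSStmt) (σ : ι' ⊕ Unit ≃ ι) (ev : ι → (Q →ₗ[K] K)) (q : Q) (w : St ι → K) :
    sl σ false (((TSys ev).act q).mulVec w) =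
      ((TSys (fun i => ev (σ (Sum.inl i)))).act q).mulVec (sl σ false w) :=
  sl_mu_false hKRS σ (fun c => ev c q) w

theorem sl_act_true (hKRS : KRSStmt) (σ : ι' ⊕ Unit ≃ ι) (ev : ι → (Q →ₗ[K] K)) (q : Q) (w : St ι → K) :
    sl σ true (((TSys ev).act q).mulVec w) =
      ((TSys (fun i => ev (σ (Sum.inl i)))).act q).mulVec (sl σ true w) +
        ev (σ (Sum.inr ())) q • sl σ false w :=
  sl_mu_true hKRS σ (fun c => ev c q) w

theorem hasDeg_kr (hKRS : KRSStmt) (σ : ι' ⊕ Unit ≃ ι) (e' : Matrix (St ι') (St ι') K)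
    (h : HasDeg sdeg 0 e') : HasDeg sdeg 0 (kr σ e' (1 : Matrix (St Unit) (St Unit) K)) := by
  obtain ⟨-, -, -, -, -, h6⟩ := hKRS K ι ι' Unit σ
  have := h6 0 0 e' 1 h (hasDeg_one _)
  simpa using this

theorem com_kr (hKRS : KRSStmt) (σ : ι' ⊕ Unit ≃ ι) (ev : ι → (Q →ₗ[K] K))
    (P : Submodule K Q) (e' : Matrix (St ι') (St ι') K)
    (h : Com (TSys (fun i => ev (σ (Sum.inl i)))) P e') :
    Com (TSys ev) P (kr σ e' (1 : Matrix (St Unit) (St Unit) K)) := by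
  obtain ⟨h1, -, -, -, h5, -⟩ := hKRS K ι ι' Unit σ
  intro p hp
  have hc : mu (fun i => ev (σ (Sum.inl i)) p) * e' = e' * mu (fun i => ev (σ (Sum.inl i)) p) := h p hp
  have ha : (TSys ev).act p = kr σ (mu (fun i => ev (σ (Sum.inl i)) p)) 1 +
      kr σ 1 (mu (fun i => ev (σ (Sum.inr i)) p)) := h5 (fun c => ev c p)
  rw [ha, add_mul, mul_add, h1, h1, h1, h1, hc]
  simp

theorem setup (hKRS : KRSStmt) (hCHI : CHIStmt) (hEPT : EPTStmt) (hTR1 : TR1Stmt) (hCPX : CPXStmt)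
    (σ : ι' ⊕ Unit ≃ ι) (ev : ι → (Q →ₗ[K] K)) (hne : ∀ c, ev c ≠ 0)
    (e : Matrix (St ι) (St ι) K) (he : IsCap (TSys ev) e) :
    ∃ (e' : Matrix (St ι') (St ι') K) (α β : Matrix (St ι) (St ι) K),
      IsCap (TSys (fun i => ev (σ (Sum.inl i)))) e' ∧
      (HasDeg sdeg 0 α ∧ Com (TSys ev) ⊤ α) ∧ (HasDeg sdeg 0 β ∧ Com (TSys ev) ⊤ β) ∧
      α * kr σ e' 1 * β = e ∧ HasDeg sdeg 0 (kr σ e' (1 : Matrix (St Unit) (St Unit) K)) ∧
      Com (TSys ev) ⊤ (kr σ e' 1) := by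
  have hchi : Chi (TSys (fun i => ev (σ (Sum.inl i)))) :=
    hCHI K Q (St ι') _ ι' (fun i => ev (σ (Sum.inl i)))
      (hEPT K Q ι' (fun i => ev (σ (Sum.inl i)))) (fun i => hne _) (hTR1 K ι')
  obtain ⟨e', he'⟩ := hCPX K Q (St ι') _ hchi
  have hd : HasDeg sdeg 0 (kr σ e' (1 : Matrix (St Unit) (St Unit) K)) := hasDeg_kr hKRS σ e' he'.2.1
  have hc : Com (TSys ev) ⊤ (kr σ e' 1) := com_kr hKRS σ ev ⊤ e' he'.2.2.1
  have ht : Matrix.trace (kr σ e' (1 : Matrix (St Unit) (St Unit) K)) ≠ 0 := by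
    obtain ⟨-, -, h3, -, -, -⟩ := hKRS K ι ι' Unit σ
    rw [h3]
    exact mul_ne_zero he'.2.2.2.1 (hTR1 K Unit)
  obtain ⟨α, β, hα, hβ, hab⟩ := he.2.2.2.2 _ hd hc ht
  exact ⟨e', α, β, he', hα, hβ, hab, hd, hc⟩

/-- The image of `kr σ e' 1`. -/
theorem sl_fix (hKRS : KRSStmt) (σ : ι' ⊕ Unit ≃ ι) (e' : Matrix (St ι') (St ι') K) (he' : e' * e' = e')
    (b : Bool) (w : St ι → K) :
    e'.mulVec (sl σ b ((kr σ e' 1).mulVec w)) = sl σ b ((kr σ e' 1).mulVec w) := by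
  rw [sl_kr1, Matrix.mulVec_mulVec, he']

theorem com_mulVec_list (S : Sys K Q (St ι)) (P : Submodule K Q) (M : Matrix (St ι) (St ι) K)
    (hM : Com S P M) (l : List Q) (hl : ∀ p ∈ l, p ∈ P) (v : St ι → K)
    (h : ((l.map (fun p => S.act p)).prod).mulVec v = 0) :
    ((l.map (fun p => S.act p)).prod).mulVec (M.mulVec v) = 0 := by
  rw [Matrix.mulVec_mulVec, com_list S P M hM l hl, ← Matrix.mulVec_mulVec, h, Matrix.mulVec_zero]

theorem fix_mulVec (S : Sys K Q (St ι')) (P : Submodule K Q) (e' : Matrix (St ι') (St ι') K)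
    (hM : Com S P e') (q : Q) (hq : q ∈ P) (u : St ι' → K) (hu : e'.mulVec u = u) :
    e'.mulVec ((S.act q).mulVec u) = (S.act q).mulVec u := by
  rw [Matrix.mulVec_mulVec, ← hM q hq, ← Matrix.mulVec_mulVec, hu]

theorem sl_list_true (hKRS : KRSStmt) (σ : ι' ⊕ Unit ≃ ι) (ev : ι → (Q →ₗ[K] K)) (l : List Q)
    (hl : ∀ p ∈ l, ev (σ (Sum.inr ())) p = 0) (w : St ι → K) :
    sl σ true (((l.map (fun p => (TSys ev).act p)).prod).mulVec w) =
      ((l.map (fun p => (TSys (fun i => ev (σ (Sum.inl i)))).act p)).prod).mulVec (sl σ true w) := by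
  induction l with
  | nil => simp
  | cons p l ih =>
    rw [List.map_cons, List.prod_cons, ← Matrix.mulVec_mulVec, sl_act_true hKRS,
      ih (fun q hq => hl q (List.mem_cons_of_mem _ hq)), hl p List.mem_cons_self, zero_smul, add_zero,
      List.map_cons, List.prod_cons, Matrix.mulVec_mulVec]

end setup

end Pool.Agent.ABC3.H90
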