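import Pool.Agent.ABC3.Stmts

set_option autoImplicit false
set_option linter.all false

namespace Pool.Agent.ABC3.H90

open Matrix Pool.Agent.ABC3

section slices
variable {K : Type} [Field K] {ι ι' : Type} [Fintype ι] [DecidableEq ι] [Fintype ι'] [DecidableEq ι']

/-- The basis element of `T(Z)` with given parts. -/
def cmb (σ : ι' ⊕ Unit ≃ ι) (s' : St ι') (b : Bool) : St ι :=
  fun c => Sum.elim s' (fun _ => b) (σ.symm c)

@[simp] theorem cmb_inl (σ : ι' ⊕ Unit ≃ ι) (s' : St ι') (b : Bool) (i : ι') :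
    cmb σ s' b (σ (Sum.inl i)) = s' i := by simp [cmb]

@[simp] theorem cmb_inr (σ : ι' ⊕ Unit ≃ ι) (s' : St ι') (b : Bool) (i : Unit) :
    cmb σ s' b (σ (Sum.inr i)) = b := by simp [cmb]

/-- The equivalence. -/
def cmbE (σ : ι' ⊕ Unit ≃ ι) : St ι' × Bool ≃ St ι where
  toFun p := cmb σ p.1 p.2
  invFun s := (fun i => s (σ (Sum.inl i)), s (σ (Sum.inr ())))
  left_inv := by rintro ⟨s', b⟩; simp
  right_inv := by
    intro s
    funext c
    obtain ⟨x, rfl⟩ := σ.surjective c
    rcases x with i | u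
    · simp
    · simp

theorem sum_cmb (σ : ι' ⊕ Unit ≃ ι) (f : St ι → K) :
    ∑ s, f s = ∑ s' : St ι', (f (cmb σ s' false) + f (cmb σ s' true)) := by
  rw [← (cmbE σ).sum_comp, Fintype.sum_prod_type]
  refine Finset.sum_congr rfl (fun s' _ => ?_)
  rw [Fintype.sum_bool, add_comm]
  rfl

/-- The slices of a vector of `T(Z)`. -/
def sl (σ : ι' ⊕ Unit ≃ ι) (b : Bool) (w : St ι → K) : St ι' → K := fun s' => w (cmb σ s' b)

theorem sl_ext (σ : ι' ⊕ Unit ≃ ι) (w w' : St ι → K) (h0 : sl σ false w = sl σ false w')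
    (h1 : sl σ true w = sl σ true w') : w = w' := by
  funext s
  obtain ⟨⟨s', b⟩, rfl⟩ := (cmbE σ).surjective s
  cases b
  · exact congrFun h0 s'
  · exact congrFun h1 s'

theorem sl_add (σ : ι' ⊕ Unit ≃ ι) (b : Bool) (w w' : St ι → K) :
    sl σ b (w + w') = sl σ b w + sl σ b w' := rfl

theorem sl_smul (σ : ι' ⊕ Unit ≃ ι) (b : Bool) (a : K) (w : St ι → K) :
    sl σ b (a • w) = a • sl σ b w := rfl

theorem sl_zero (σ : ι' ⊕ Unit ≃ ι) (b : Bool) :
    sl σ b (0 : St ι → K) = 0 := rfl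

/-- slices of `A ⊗ C`. -/
theorem sl_kr (σ : ι' ⊕ Unit ≃ ι) (A : Matrix (St ι') (St ι') K) (C : Matrix (St Unit) (St Unit) K)
    (b : Bool) (w : St ι → K) :
    sl σ b ((kr σ A C).mulVec w) =
      A.mulVec (C (fun _ => b) (fun _ => false) • sl σ false w +
        C (fun _ => b) (fun _ => true) • sl σ true w) := by
  funext s'
  show (∑ s, kr σ A C (cmb σ s' b) s * w s) = ∑ t', A s' t' * _
  rw [sum_cmb σ]
  refine Finset.sum_congr rfl (fun t' _ => ?_)
  simp only [kr, cmb_inl, cmb_inr, Pi.add_apply, Pi.smul_apply, smul_eq_mul, sl]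
  ring

theorem sl_kr1 (σ : ι' ⊕ Unit ≃ ι) (A : Matrix (St ι') (St ι') K) (b : Bool) (w : St ι → K) :
    sl σ b ((kr σ A 1).mulVec w) = A.mulVec (sl σ b w) := by
  rw [sl_kr]
  have hne : (fun _ : Unit => true) ≠ (fun _ : Unit => false) := by
    intro h; exact absurd (congrFun h ()) (by decide)
  cases b
  · rw [Matrix.one_apply_eq, Matrix.one_apply_ne hne.symm]; simp
  · rw [Matrix.one_apply_eq, Matrix.one_apply_ne hne]; simp

theorem mu_unit_tf (u : Unit → K) : (mu u : Matrix (St Unit) (St Unit) K) (fun _ => true) (fun _ => false) = u () := by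
  rw [mu_def, Matrix.sum_apply]
  simp only [Finset.univ_unique, Finset.sum_singleton, Matrix.smul_apply, xc, smul_eq_mul]
  rw [if_pos]
  · simp
  · refine ⟨by simp, ?_⟩
    funext x
    cases x
    simp

theorem mu_unit_f (u : Unit → K) (s : St Unit) : (mu u : Matrix (St Unit) (St Unit) K) (fun _ => false) s = 0 := by
  rw [mu_def, Matrix.sum_apply]
  simp only [Finset.univ_unique, Finset.sum_singleton, Matrix.smul_apply, xc, smul_eq_mul]
  rw [if_neg]
  · simp
  · rintro ⟨_, h⟩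
    have := congrFun h default
    simp at this

theorem mu_unit_tt (u : Unit → K) : (mu u : Matrix (St Unit) (St Unit) K) (fun _ => true) (fun _ => true) = 0 := by
  rw [mu_def, Matrix.sum_apply]
  simp only [Finset.univ_unique, Finset.sum_singleton, Matrix.smul_apply, xc, smul_eq_mul]
  rw [if_neg]
  · simp
  · rintro ⟨h, _⟩
    simp at h

theorem sl_mu_false (hKRS : KRSStmt) (σ : ι' ⊕ Unit ≃ ι) (z : ι → K) (w : St ι → K) :
    sl σ false ((mu z).mulVec w) = (mu (fun i => z (σ (Sum.inl i)))).mulVec (sl σ false w) := by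
  obtain ⟨-, -, -, -, h, -⟩ := hKRS K ι ι' Unit σ
  rw [h z, Matrix.add_mulVec, sl_add, sl_kr1, sl_kr, mu_unit_f, mu_unit_f]
  simp

theorem sl_mu_true (hKRS : KRSStmt) (σ : ι' ⊕ Unit ≃ ι) (z : ι → K) (w : St ι → K) :
    sl σ true ((mu z).mulVec w) = (mu (fun i => z (σ (Sum.inl i)))).mulVec (sl σ true w) +
      z (σ (Sum.inr ())) • sl σ false w := by
  obtain ⟨-, -, -, -, h, -⟩ := hKRS K ι ι' Unit σ
  rw [h z, Matrix.add_mulVec, sl_add, sl_kr1, sl_kr, mu_unit_tf, mu_unit_tt]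
  simp

theorem sdeg_cmb (hKRS : KRSStmt) (σ : ι' ⊕ Unit ≃ ι) (s' : St ι') (b : Bool) :
    sdeg (cmb σ s' b) = sdeg s' + (if b then 1 else 0) := by
  obtain ⟨-, -, -, h, -, -⟩ := hKRS ℚ ι ι' Unit σ
  rw [h]
  simp only [cmb_inl, cmb_inr]
  congr 1
  unfold sdeg
  cases b <;> simp

theorem homV_sl_false (hKRS : KRSStmt) (σ : ι' ⊕ Unit ≃ ι) (d : ℤ) (w : St ι → K)
    (h : HomV sdeg d w) : HomV sdeg d (sl σ false w) := by
  intro s' hs'
  have := h _ hs'
  rw [sdeg_cmb hKRS] at this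
  simpa using this

theorem homV_sl_true (hKRS : KRSStmt) (σ : ι' ⊕ Unit ≃ ι) (d : ℤ) (w : St ι → K)
    (h : HomV sdeg d w) : HomV sdeg (d - 1) (sl σ true w) := by
  intro s' hs'
  have := h _ hs'
  rw [sdeg_cmb hKRS] at this
  simp at this
  omega

end slices

section general
variable {K Q B : Type} [Field K] [AddCommGroup Q] [Module K Q] [Fintype B] [DecidableEq B]

theorem homV_mulVec (deg : B → ℤ) (k d : ℤ) (M : Matrix B B K) (v : B → K) (hM : HasDeg deg k M)
    (hv : HomV deg d v) : HomV deg (d + k) (M.mulVec v) := by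
  intro s hs
  have : (∑ s', M s s' * v s') ≠ 0 := hs
  obtain ⟨s', _, h'⟩ := Finset.exists_ne_zero_of_sum_ne_zero this
  have h1 := hM s s' (left_ne_zero_of_mul h')
  have h2 := hv s' (right_ne_zero_of_mul h')
  rw [h1, h2]

theorem hasDeg_mul (deg : B → ℤ) (k l : ℤ) (M N : Matrix B B K) (hM : HasDeg deg k M)
    (hN : HasDeg deg l N) : HasDeg deg (k + l) (M * N) := by
  intro s s' h
  rw [Matrix.mul_apply] at h
  obtain ⟨t, _, h'⟩ := Finset.exists_ne_zero_of_sum_ne_zero h
  have h1 := hM s t (left_ne_zero_of_mul h')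
  have h2 := hN t s' (right_ne_zero_of_mul h')
  rw [h1, h2]; ring

theorem hasDeg_one (deg : B → ℤ) : HasDeg deg 0 (1 : Matrix B B K) := by
  intro s s' h
  by_cases hs : s = s'
  · rw [hs]; ring
  · exact absurd (Matrix.one_apply_ne hs) h

theorem com_mul (S : Sys K Q B) (P : Submodule K Q) (M N : Matrix B B K) (hM : Com S P M)
    (hN : Com S P N) : Com S P (M * N) := by
  intro p hp
  rw [← mul_assoc, hM p hp, mul_assoc, hN p hp, mul_assoc]

theorem com_list (S : Sys K Q B) (P : Submodule K Q) (M : Matrix B B K) (hM : Com S P M)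
    (l : List Q) (hl : ∀ p ∈ l, p ∈ P) :
    (l.map (fun p => S.act p)).prod * M = M * (l.map (fun p => S.act p)).prod := by
  induction l with
  | nil => simp
  | cons p l ih =>
    rw [List.map_cons, List.prod_cons, mul_assoc, ih (fun q hq => hl q (List.mem_cons_of_mem _ hq)),
      ← mul_assoc, hM p (hl p List.mem_cons_self), mul_assoc]

end general

end Pool.Agent.ABC3.H90
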