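import Pool.Agent.Helper90_ABC3.Setup

set_option autoImplicit false
set_option linter.all false

namespace Pool.Agent.ABC3.H90

open Matrix Pool.Agent.ABC3

theorem finrank_ker {K Q : Type} [Field K] [AddCommGroup Q] [Module K Q] [FiniteDimensional K Q]
    (a : Q →ₗ[K] K) (ha : a ≠ 0) :
    Module.finrank K (LinearMap.ker a) + 1 = Module.finrank K Q := by
  have h := LinearMap.finrank_range_add_finrank_ker a
  have hr : LinearMap.range a = ⊤ := LinearMap.range_eq_top.mpr (LinearMap.surjective ha)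
  rw [hr, finrank_top, Module.finrank_self] at h
  omega

/-- `(a ⊗ 1)` on `⊤ ⊗ C`. -/
noncomputable def evT {K Q : Type} [Field K] [AddCommGroup Q] [Module K Q]
    (a : Q →ₗ[K] K) (P : Submodule K Q) (C : Type) [AddCommGroup C] [Module K C] :
    TensorProduct K P C →ₗ[K] C :=
  TensorProduct.lift ((LinearMap.lsmul K C).comp (a.comp P.subtype))

theorem evT_tmul {K Q : Type} [Field K] [AddCommGroup Q] [Module K Q]
    (a : Q →ₗ[K] K) (P : Submodule K Q) (C : Type) [AddCommGroup C] [Module K C] (p : P) (c : C) :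
    evT a P C (p ⊗ₜ[K] c) = a (p : Q) • c := by
  simp [evT]

theorem mulMap_incl {K Q B : Type} [Field K] [AddCommGroup Q] [Module K Q] [Fintype B] [DecidableEq B]
    (S : Sys K Q B) (P : Submodule K Q) (C : Submodule K (B → K)) (τ : TensorProduct K P C) :
    mulMap S ⊤ C (TensorProduct.map (Submodule.inclusion (le_top : P ≤ ⊤)) LinearMap.id τ) =
      mulMap S P C τ := by
  induction τ using TensorProduct.induction_on with
  | zero => simp
  | tmul p c => simp [mulMap_tmul]
  | add x y hx hy => rw [map_add, map_add, hx, hy, map_add]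

theorem evT_incl {K Q : Type} [Field K] [AddCommGroup Q] [Module K Q]
    (a : Q →ₗ[K] K) (C : Type) [AddCommGroup C] [Module K C]
    (τ : TensorProduct K (LinearMap.ker a) C) :
    evT a ⊤ C (TensorProduct.map (Submodule.inclusion (le_top : LinearMap.ker a ≤ ⊤)) LinearMap.id τ) = 0 := by
  induction τ using TensorProduct.induction_on with
  | zero => simp
  | tmul p c =>
    have : a (p : Q) = 0 := p.2
    simp [evT_tmul, this]
  | add x y hx hy => rw [map_add, map_add, hx, hy, add_zero]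

/-- STA. -/
theorem sta (hBZE : BZEStmt) (hKRS : KRSStmt) (hANN : ANNStmt) (hCHI : CHIStmt) (hEPT : EPTStmt)
    (hTR1 : TR1Stmt) (hCPX : CPXStmt) : STAStmt := by
  intro K Q _ _ _ _ _ ι ι' _ _ _ _ σ ev hne hpos hgood hstar e he
  obtain ⟨e', α, β, he', hα, hβ, hab, hFd, hFc⟩ := setup hKRS hCHI hEPT hTR1 hCPX σ ev hne e he
  obtain ⟨hLA, hLB⟩ := hgood e' he'
  have hchi : Chi (TSys ev) :=
    hCHI K Q (St ι) _ ι ev (hEPT K Q ι ev) hne (hTR1 K ι)
  have hcard : Fintype.card ι = Fintype.card ι' + 1 := by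
    rw [← Fintype.card_congr σ, Fintype.card_sum, Fintype.card_unit]
  intro d hd v hv hev
  set F : Matrix (St ι) (St ι) K := kr σ e' 1 with hF
  -- w = F β v
  set w : St ι → K := F.mulVec (β.mulVec v) with hw
  have hαw : α.mulVec w = v := by
    rw [hw, Matrix.mulVec_mulVec, Matrix.mulVec_mulVec, hab, hev]
  suffices hw0 : w = 0 by rw [← hαw, hw0, Matrix.mulVec_zero]
  have hwd : HomV sdeg d w := by
    have h1 : HomV sdeg (d + 0) (β.mulVec v) := homV_mulVec sdeg 0 d β v hβ.1 hv
    have h2 : HomV sdeg (d + 0 + 0) w := homV_mulVec sdeg 0 (d + 0) F _ hFd h1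
    simpa using h2
  have hu0 := homV_sl_false hKRS σ d w hwd
  have hu1 := homV_sl_true hKRS σ d w hwd
  have hf0 : e'.mulVec (sl σ false w) = sl σ false w := sl_fix hKRS σ e' he'.1 false _
  have hf1 : e'.mulVec (sl σ true w) = sl σ true w := sl_fix hKRS σ e' he'.1 true _
  have hthr : thr (Fintype.card ι) (Module.finrank K Q) =
      thr (Fintype.card ι') (Module.finrank K Q) + 1 := by
    rw [hcard]; unfold thr; push_cast; ring
  rw [hthr] at hd
  have h1z : sl σ true w = 0 := hLA (d - 1) (by omega) _ hu1 hf1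
  by_cases hlt : 2 * d < thr (Fintype.card ι') (Module.finrank K Q)
  · have h0z : sl σ false w = 0 := hLA d hlt _ hu0 hf0
    exact sl_ext σ w 0 h0z h1z
  have hdt : 2 * d = thr (Fintype.card ι') (Module.finrank K Q) := by omega
  -- ANN
  have hann := hANN K Q (St ι) (TSys ev) hpos hchi e he d v hv hev
  have hannw : ∀ l : List Q, l.length = 2 * Module.finrank K Q →
      ((l.map (fun p => (TSys ev).act p)).prod).mulVec w = 0 := by
    intro l hl
    have h1 : ((l.map (fun p => (TSys ev).act p)).prod).mulVec v = 0 :=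
      hann l (fun p _ => Submodule.mem_top) (by rw [finrank_top]; exact hl)
    have h2 := com_mulVec_list (TSys ev) ⊤ β hβ.2 l (fun p _ => Submodule.mem_top) v h1
    exact com_mulVec_list (TSys ev) ⊤ F hFc l (fun p _ => Submodule.mem_top) _ h2
  obtain ⟨a, ha⟩ : ∃ a, a = ev (σ (Sum.inr ())) := ⟨_, rfl⟩
  have ha0 : a ≠ 0 := by rw [ha]; exact hne _
  obtain ⟨qa, hqa⟩ : ∃ q, a q = 1 := LinearMap.surjective ha0 1
  have hfr := finrank_ker a ha0
  set u0 := sl σ false w with hu0def
  have hAnnP : AnnP (TSys (fun i => ev (σ (Sum.inl i)))) (LinearMap.ker a)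
      (((TSys (fun i => ev (σ (Sum.inl i)))).act qa).mulVec u0) := by
    intro l hl hlen
    have h1 := hannw (l ++ [qa, qa]) (by simp [hlen]; omega)
    rw [List.map_append, List.prod_append, ← Matrix.mulVec_mulVec] at h1
    have h2 := congrArg (sl σ true) h1
    rw [sl_list_true hKRS σ ev l (fun p hp => by rw [← ha]; exact hl p hp), sl_zero] at h2
    have h3 : sl σ true ((([qa, qa].map (fun p => (TSys ev).act p)).prod).mulVec w) =
        (2 : K) • ((TSys (fun i => ev (σ (Sum.inl i)))).act qa).mulVec u0 := by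
      rw [List.map_cons, List.prod_cons, List.map_cons, List.prod_cons, List.map_nil, List.prod_nil,
        mul_one, ← Matrix.mulVec_mulVec, sl_act_true hKRS, sl_act_true hKRS, sl_act_false hKRS, h1z,
        Matrix.mulVec_zero, ← ha, hqa, one_smul, one_smul, zero_add, two_smul]
    rw [h3, Matrix.mulVec_smul] at h2
    have h2ne : (2 : K) ≠ 0 := by
      intro h
      have h3' : (3 : K) = 0 := by exact_mod_cast CharP.cast_eq_zero K 3
      have : (1 : K) = 0 := by linear_combination h3' - h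
      exact one_ne_zero this
    exact (smul_eq_zero.mp h2).resolve_left h2ne
  have hdq : HomV (TSys (fun i => ev (σ (Sum.inl i)))).deg (d + 1)
      (((TSys (fun i => ev (σ (Sum.inl i)))).act qa).mulVec u0) :=
    homV_mulVec _ 1 d _ u0 ((TSys (fun i => ev (σ (Sum.inl i)))).hdeg qa) hu0
  have hfq : e'.mulVec (((TSys (fun i => ev (σ (Sum.inl i)))).act qa).mulVec u0) =
      ((TSys (fun i => ev (σ (Sum.inl i)))).act qa).mulVec u0 :=
    fix_mulVec _ ⊤ e' he'.2.2.1 qa Submodule.mem_top u0 hf0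
  have hker : LinearMap.ker a ≠ ⊤ := by
    intro h
    exact ha0 (LinearMap.ker_eq_top.mp h)
  have hbze := hBZE K Q (St ι') (TSys (fun i => ev (σ (Sum.inl i)))) ι' (fun i => ev (σ (Sum.inl i))) e' d
    he'.1 he'.2.1 he'.2.2.1 (fun d' hd' v' hv' hev' => hLA d' (by omega) v' hv' hev')
    (fun P hP hP' => hstar e' he' P hP hP' (d + 1) (by omega)) (LinearMap.ker a) hker _ hdq hfq hAnnP
  obtain ⟨τ, hτ⟩ := hbze
  -- the relation
  have hu0mem : u0 ∈ Cd (TSys (fun i => ev (σ (Sum.inl i)))) e' d := ⟨hu0, hf0⟩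
  have hinj := hLB d hdt
  have hz : (⟨qa, Submodule.mem_top⟩ : (⊤ : Submodule K Q)) ⊗ₜ[K] (⟨u0, hu0mem⟩ : Cd (TSys (fun i => ev (σ (Sum.inl i)))) e' d) =
      TensorProduct.map (Submodule.inclusion (le_top : LinearMap.ker a ≤ ⊤)) LinearMap.id τ := by
    apply hinj
    rw [mulMap_tmul, mulMap_incl, hτ]
  have hz2 := congrArg (evT a ⊤ (Cd (TSys (fun i => ev (σ (Sum.inl i)))) e' d)) hz
  rw [evT_tmul, evT_incl] at hz2
  have hz3 : u0 = 0 := by
    have h4 : a qa • u0 = 0 := congrArg Subtype.val hz2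
    rwa [hqa, one_smul] at h4
  exact sl_ext σ w 0 hz3 h1z

end Pool.Agent.ABC3.H90
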